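import Pool.Agent.W_448cc7_h94.CsD

/-!
Case B: from the strips to the context; there are no (C) elements (after `FcW` of helper67).
-/

namespace Pool.Agent.GaussPoset.Cs

set_option linter.unusedSectionVars false

open Polynomial Finset

universe u

variable {P : Type u} [Fintype P] [PartialOrder P] [DecidableEq P] {r m K : ℕ}

open Cp

/-- the types of one component -/
inductive TyL (m K : ℕ) (t : Tops P) (b : ℕ) (N : Finset P) (θ : P → ℕ) : Prop
  | light (h1 : N = onlyB t) (h2 : θ = fun x => lev x - m) (h3 : b = 1)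
      (h6 : ∃ x ≤ (t : P), lev x = m)
  | rect (Nc : Finset P) (co : P → ℕ × ℕ) (h0 : RectNat (2 * m) m t b Nc co)
      (h1 : N = natR Nc co) (h2 : θ = thR m b Nc co) (h3 : NopT m t)
  | stair (Nc : Finset P) (co : P → ℕ × ℕ) (h0 : StairNat (2 * m) m t Nc co)
      (h1 : N = natS Nc co) (h2 : θ = thS m Nc co) (h3 : b = m / 2 + 1) (h4 : NopT m t)
  | quad (h1 : N = lowPart (2 * m) (t : P)) (h2 : θ = fun _ => 0) (h3 : b = 2)
      (h4 : QInf m m t) (h5 : 4 ≤ m)
  | oth (h1 : ∃ B, NatTop m t b N θ B) (h2 : lowPart (2 * m) (t : P) ⊆ N)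
      (h3 : ∀ z, lev z = 2 * m + 1 → z ∉ N → ∀ x ∈ N, z ⋖ x →
        K ≤ ct m (θ x + 1) z ∨ ∃ y ∈ N, ∀ w, y < w ↔ z < w)
      (h4 : ∀ x ∈ N, 2 * m + 1 ≤ lev x → K ≤ ct m (θ x + 1) x + (θ x + 1))
      (h5 : ∀ x ∈ N, lev x = 2 * m + 1 → 1 ≤ θ x ∧ θ x ≤ m)

lemma TyL.tyG {N : Tops P → Finset P} {t : Tops P} {b : ℕ} {θ : P → ℕ}
    (h : TyL m K t b (N t) θ) : TyG m K N t b θ := by
  rcases h with ⟨h1, h2, h3, h6⟩ | ⟨Nc, co, h0, h1, h2, h3⟩ | ⟨Nc, co, h0, h1, h2, h3, h4⟩ |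
    ⟨h1, h2, h3, h4, h5⟩ | ⟨h1, h2, h3, h4, h5⟩
  · exact TyG.light h1 h2 h3 h6
  · exact TyG.rect Nc co h0 h1 h2 h3
  · exact TyG.stair Nc co h0 h1 h2 h3 h4
  · exact TyG.quad h1 h2 h3 h4 h5
  · refine TyG.oth h1 h2 (fun z hz x hx hl hzx => ?_) h4 h5
    have hz' := mem_sdiff.mp hz
    rcases h3 z hl (mem_unnat.mp hz'.1 t) x hx hzx with h | ⟨y, hy, h⟩
    · exact h
    · exact absurd (mem_twY.mpr ⟨hz'.1, hl, y, fun h' => mem_unnat.mp h' t hy, h⟩) hz'.2

section One

variable {t : Tops P} {lo hi : ℕ → ℕ} {e : ℕ → ℕ → P}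

/-- the type of a strip -/
theorem tyL_shape (h : Win.GoodTo P r (2 * m)) (hm : 2 ≤ m) (hm3 : m ≠ 3)
    (C : Comp (2 * m) (t : P) lo hi e) (hS : Wd.Shape (2 * m) lo hi)
    (hO : ¬ StairShape (2 * m) lo hi → ∀ a, a ≤ m → Wd.LateD (2 * m) a lo hi →
      Wd.word lo hi a (2 * m - a) ∈ Wd.lateW a → ∃ N θ, TyL m K t (hi m - lo m + 1) N θ) :
    ∃ N θ, TyL m K t (hi m - lo m + 1) N θ ∧
      (StairShape (2 * m) lo hi → StairInfo m t lo hi e N θ) := by
  have H := h.H
  have hg := h.good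
  by_cases S : StairShape (2 * m) lo hi
  · obtain ⟨Nc, co, h1, h1'⟩ := exists_stair C H hg H.gradedBelow S (i := m) le_rfl
    have hnop : NopT m t := by
      intro x z hxt hxl hx2 hzx honly
      obtain ⟨j, hj⟩ : ∃ j, 2 * m = j + 1 := ⟨2 * m - 1, by omega⟩
      have h2 := stairShape_pendant (i := j) (hj ▸ h) (by omega) t.2 (hj ▸ C) (hj ▸ S)
        (hxl.trans hj) hxt hx2 hzx honly
      have h3 := cell_lev C (x := x) hxt (by omega)
      omega
    refine ⟨_, _, TyL.stair Nc co h1 rfl rfl ?_ hnop, fun _ => ⟨Nc, co, h1, rfl, rfl, hnop, h1'⟩⟩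
    have e1 := S.hi m (by omega)
    have e2 := stair_lo C S
    omega
  · suffices hs : ∃ N θ, TyL m K t (hi m - lo m + 1) N θ by
      obtain ⟨N, θ, h1⟩ := hs
      exact ⟨N, θ, h1, fun h2 => absurd h2 S⟩
    rcases hS with h1 | ⟨h1, S'⟩ | ⟨h1, h2⟩ | ⟨h1, h2, h3⟩ | ⟨h1, h2⟩ | ⟨a, h0, h1, h2, h3, hN, h4⟩
    · have e1 := h1 m (by omega)
      exact ⟨_, _, TyL.light rfl rfl (by omega)
        ⟨e m (lo m), C.le_t m (lo m) (by omega) le_rfl (C.lo_le m (by omega)),
          C.lev_e m (lo m) (by omega) le_rfl (C.lo_le m (by omega))⟩⟩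
    · have hlt : lo m < hi m := by
        have g1 := C.lo_mono (l := 1) (d := m - 1) (by omega)
        have g2 := C.hi_mono (l := 1) (d := m - 1) (by omega)
        rw [show 1 + (m - 1) = m by omega] at g1 g2
        by_contra hcon
        have g3 := C.lo_le m (by omega)
        have g4 := shape_lo C S'.lo (l := m) (by omega) m (by omega)
        have g5 := shape_hi C S'.hi (l := m) (by omega) m (by omega)
        have g6 := C.lo_le (m + m) (by omega)
        omega
      obtain ⟨Nc, co, h2, -⟩ := exists_rect C H hg H.gradedBelow S' (i := m) le_rfl hlt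
      refine ⟨_, _, TyL.rect Nc co h2 rfl rfl ?_⟩
      intro x z hxt hxl hx2 hzx honly
      obtain ⟨j, hj⟩ : ∃ j, 2 * m = j + 1 := ⟨2 * m - 1, by omega⟩
      exact rectShape_no_pendant (i := j) (hj ▸ h) (by omega) t.2 (hj ▸ C) (hj ▸ S')
        (hxl.trans hj) hxt hx2 hzx honly
    · exact absurd h2 S
    · omega
    · omega
    · have D : Wd.LateD (2 * m) a lo hi := ⟨h0, h1, h2, h3, h4⟩
      rcases Nat.lt_or_ge m a with hma | hma
      · have e1 := D.h2 m hma
        exact ⟨_, _, TyL.light rfl rfl (by omega)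
          ⟨e m (lo m), C.le_t m (lo m) (by omega) le_rfl (C.lo_le m (by omega)),
            C.lev_e m (lo m) (by omega) le_rfl (C.lo_le m (by omega))⟩⟩
      · rcases h4 with ⟨⟨g1, g2⟩, g3⟩ | g3
        · have hq := D.quad C g3
          obtain rfl : a = m := by omega
          have Q : QRows (2 * a) a lo hi := ⟨D.h2, D.h3, by
            intro k hk hk2
            have := hq (k - a) (by omega) (by omega)
            rwa [show a + (k - a) = k by omega] at this⟩
          have e1 := D.h3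
          exact ⟨_, _, TyL.quad rfl rfl (by omega) (Q.inf C (by omega)) (by omega)⟩
        · exact hO S a hma D g3

end One

section All

variable {lo hi : Tops P → ℕ → ℕ} {e : Tops P → ℕ → ℕ → P}

/-- case B: the context -/
theorem exists_WG (hm : 2 ≤ m) (h : Win.GoodTo P r (2 * m)) (hK : KapS m K)
    (hK2 : K ≤ (m + 1) ^ 2)
    (C : ∀ t : Tops P, Comp (2 * m) (t : P) (lo t) (hi t) (e t))
    (hT : ∀ t, ∃ N θ, TyL m K t (hi t m - lo t m + 1) N θ ∧
      (StairShape (2 * m) (lo t) (hi t) → StairInfo m t (lo t) (hi t) (e t) N θ))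
    (hnj : ∀ z : P, lev z = 2 * m + 1 → ¬ Hul.Jn z) :
    ∃ N θ, WG r m K N (fun t => hi t m - lo t m + 1) θ ∧
      ∀ t, StairShape (2 * m) (lo t) (hi t) → StairInfo m t (lo t) (hi t) (e t) (N t) (θ t) := by
  classical
  choose N θ hT hI using hT
  refine ⟨N, θ, ⟨h, hm, fun t => (hT t).tyG, ?_, hnj, hK, hK2⟩, hI⟩
  rw [card_level h.H h.good C (i := m) (by omega)]

/-- **Case B.**  If no element of level `2 m + 1` is below two tops then no element of level
`2 m + 1` covers the fold end and the straight end of a stair.  `hO`: the late components with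
`a ≤ m` which are no quadrics (`m = 4, .., 8` only). -/
theorem caseB_no_cc (hm : 2 ≤ m) (hm3 : m ≠ 3) (h : Win.GoodTo P r (2 * m))
    (C : ∀ t : Tops P, Comp (2 * m) (t : P) (lo t) (hi t) (e t))
    (hS : ∀ t, Wd.Shape (2 * m) (lo t) (hi t))
    (hO : ∀ t, ¬ StairShape (2 * m) (lo t) (hi t) → ∀ a, a ≤ m →
      Wd.LateD (2 * m) a (lo t) (hi t) → Wd.word (lo t) (hi t) a (2 * m - a) ∈ Wd.lateW a →
      ∃ N θ, TyL m (Ke m) t (hi t m - lo t m + 1) N θ)
    (hnj : ∀ z : P, lev z = 2 * m + 1 → ¬ Hul.Jn z) {t : Tops P} {z : P}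
    (S : StairShape (2 * m) (lo t) (hi t)) (h0 : lo t (2 * m) = 0)
    (hz1 : z ⋖ e t (2 * m) m) (hz2 : z ⋖ e t (2 * m) 0) : False := by
  classical
  have H := h.H
  obtain ⟨N, θ, W, hI⟩ := exists_WG hm h (kapS_Ke hm hm3) (Ke_le hm hm3) C
    (fun t => tyL_shape h hm hm3 (C t) (hS t) (hO t)) hnj
  obtain ⟨Nc, co, R, h1, h2, h3, h4⟩ := hI t S
  have e1 := S.hi (2 * m) le_rfl
  have e2 := (C t).lev_e (2 * m) m le_rfl (by omega) (by omega)
  have e3 := (C t).lev_e (2 * m) 0 le_rfl (by omega) (by omega)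
  have t2 := (C t).le_t (2 * m) m le_rfl (by omega) (by omega)
  have t3 := (C t).le_t (2 * m) 0 le_rfl (by omega) (by omega)
  have hF : e t (2 * m) m ∈ lowPart (2 * m) (t : P) := mem_lowPart.mpr ⟨t2, e2.le⟩
  have hS' : e t (2 * m) 0 ∈ lowPart (2 * m) (t : P) := mem_lowPart.mpr ⟨t3, e3.le⟩
  have c2 : co (e t (2 * m) m) = (m, m) := by
    rw [h4 _ hF]
    unfold ccoord
    rw [scoord_e (C t) (k := 2 * m) (s := m) le_rfl (by omega) (by omega), e2]
    exact Prod.ext rfl (by simp only; omega)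
  have c3 : co (e t (2 * m) 0) = (0, 2 * m) := by
    rw [h4 _ hS']
    unfold ccoord
    rw [scoord_e (C t) (k := 2 * m) (s := 0) le_rfl (by omega) (by omega), e3]
    exact Prod.ext rfl (by simp only; omega)
  have hFN := R.strip hF
  have hSN := R.strip hS'
  have hne : e t (2 * m) m ≠ e t (2 * m) 0 := by
    intro h
    rw [h, c3, Prod.mk.injEq] at c2
    omega
  have D : CEl t Nc co m z (e t (2 * m) m) (e t (2 * m) 0) :=
    ⟨R.chart, R.strip, hFN, hSN, c2, c3, hz1, hz2, fun y hy => uc_pair H hz1 hz2 hne hy⟩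
  have hlz := D.lev_z H.gradedBelow
  have hzR : z ∈ r2 (2 * m) N := by
    refine mem_sdiff.mpr ⟨D.not_nat W.natSys h1 (by omega) hz1.1 hz2.1 hlz, ?_⟩
    intro hY
    obtain ⟨-, -, y, hy, hyz⟩ := mem_twY.mp hY
    refine hy (D.not_nat W.natSys h1 (by omega) ((hyz _).mpr hz1.1) ((hyz _).mpr hz2.1) ?_)
    rw [lev_eq_of_up hyz]
    exact hlz
  have htF : topOf (e t (2 * m) m) = t := W.natSys.topOf_eq (by
    rw [h1]; exact mem_natS.mpr (Or.inl hFN))
  have htS : topOf (e t (2 * m) 0) = t := W.natSys.topOf_eq (by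
    rw [h1]; exact mem_natS.mpr (Or.inl hSN))
  have hthF : θ t (e t (2 * m) m) = m % 2 := by
    rw [h2]
    unfold thS
    rw [if_neg (fold_not_junk R.chart hFN (by rw [c2]; show 1 ≤ m; omega)), c2]
    simp only
    omega
  have hthS : m % 2 ≤ θ t (e t (2 * m) 0) := by
    rw [h2]
    unfold thS
    split_ifs
    · rw [e3]; omega
    · rw [c3]; simp only; omega
  have hlab : GaussPoset.h2 (2 * m) N θ z = hh m := by
    rw [W.h2_eq hzR hlz hz1 (fun y hy => ?_), htF, hthF, hh_eq]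
    rcases D.only y hy with h | h
    · rw [h]
    · rw [h, htF, htS, hthF]
      exact hthS
  rcases W.no_cc hm3 (by unfold Ke; omega) hzR with h5 | h5
  · rw [cst_ct hlab] at h5
    have h6 := D.cst_eq H.gradedBelow (by omega)
    have h7 : cst m (fun _ => hh m) z = ct m (hh m) z := rfl
    omega
  · exact h5 hlz

end All

end Pool.Agent.GaussPoset.Cs
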