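import Pool.Agent.W_448fc_h67.FcX

/-!
Case B: the natural system at window `m`, level `2 m`, the other components may have natural
elements of the level `2 m + 1` with twins (after `FcS` of helper67).
-/

namespace Pool.Agent.GaussPoset.Cs

set_option linter.unusedSectionVars false

open Polynomial Finset

universe u

variable {P : Type u} [Fintype P] [PartialOrder P] [DecidableEq P] {r m K : ℕ}
  {N : Tops P → Finset P} {b : Tops P → ℕ} {θ : Tops P → P → ℕ}

/-- the types at window `m` -/
inductive TyG (m K : ℕ) (N : Tops P → Finset P) (t : Tops P) (b : ℕ) (θ : P → ℕ) : Prop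
  | light (h1 : N t = onlyB t) (h2 : θ = fun x => lev x - m) (h3 : b = 1)
      (h6 : ∃ x ≤ (t : P), lev x = m)
  | rect (Nc : Finset P) (co : P → ℕ × ℕ) (h0 : RectNat (2 * m) m t b Nc co)
      (h1 : N t = natR Nc co) (h2 : θ = thR m b Nc co) (h3 : NopT m t)
  | stair (Nc : Finset P) (co : P → ℕ × ℕ) (h0 : StairNat (2 * m) m t Nc co)
      (h1 : N t = natS Nc co) (h2 : θ = thS m Nc co) (h3 : b = m / 2 + 1) (h4 : NopT m t)
  | quad (h1 : N t = lowPart (2 * m) (t : P)) (h2 : θ = fun _ => 0) (h3 : b = 2)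
      (h4 : QInf m m t) (h5 : 4 ≤ m)
  | oth (h1 : ∃ B, NatTop m t b (N t) θ B) (h2 : lowPart (2 * m) (t : P) ⊆ N t)
      (h3 : ∀ z ∈ r2 (2 * m) N, ∀ x ∈ N t, lev z = 2 * m + 1 → z ⋖ x → K ≤ ct m (θ x + 1) z)
      (h4 : ∀ x ∈ N t, 2 * m + 1 ≤ lev x → K ≤ ct m (θ x + 1) x + (θ x + 1))
      (h5 : ∀ x ∈ N t, lev x = 2 * m + 1 → 1 ≤ θ x ∧ θ x ≤ m)

/-- the context: no element of level `2 m + 1` is below two tops -/
structure WG (r m K : ℕ) (N : Tops P → Finset P) (b : Tops P → ℕ) (θ : Tops P → P → ℕ) :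
    Prop where
  gt : Win.GoodTo P r (2 * m)
  two : 2 ≤ m
  typ : ∀ t, TyG m K N t (b t) (θ t)
  sum_b : ∑ t, b t = (lv P m).card
  nj : ∀ z : P, lev z = 2 * m + 1 → ¬ Hul.Jn z
  kap0 : KapS m K
  K_le : K ≤ (m + 1) ^ 2

lemma WG.lowOnly (W : WG r m K N b θ) {t : Tops P} {x : P} (hx : x ≤ (t : P))
    (hl : lev x ≤ 2 * m + 1) : x ∈ onlyB t := by
  rw [mem_onlyB]
  intro s hs hxs
  by_contra hne
  rcases Nat.lt_or_ge (2 * m) (lev x) with h | h
  · exact W.nj x (by omega) ⟨s, t, hs, t.2, hne, hxs, hx⟩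
  · exact hne (Cp.top_eq W.gt.H W.gt.good h hs t.2 hxs hx)

lemma WG.lowUp (W : WG r m K N b θ) (t : Tops P) :
    ∀ x ∈ lowPart (2 * m) (t : P), ∀ y, x ≤ y → y ∈ lowPart (2 * m) (t : P) := by
  intro x hx y hxy
  rw [mem_lowPart] at hx ⊢
  refine ⟨Cp.up_le W.gt.H W.gt.good t.2 hx.1 hx.2 hxy, ?_⟩
  rcases eq_or_lt_of_le hxy with h | h
  · rw [← h]; exact hx.2
  · have := lev_strictAnti h; omega

theorem WG.natTop (W : WG r m K N b θ) (t : Tops P) : ∃ B, NatTop m t (b t) (N t) (θ t) B := by
  have hm := W.two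
  have hgr := W.gt.H.gradedBelow
  rcases W.typ t with ⟨h1, h2, h3, h6⟩ | ⟨Nc, co, h0, h1, h2, h3⟩ |
    ⟨Nc, co, h0, h1, h2, h3, h4⟩ | ⟨h1, h2, h3, h4, h5⟩ | ⟨h1, -, -, -, -⟩
  · rw [h1, h2, h3]
    exact ⟨_, natTop_light hgr (fun x hx hxi => W.lowOnly hx (by omega)) h6⟩
  · rw [h1, h2]
    exact ⟨_, h0.natTop hgr (by omega)⟩
  · rw [h1, h2, h3]
    exact ⟨_, h0.natTop hgr (by omega) (by omega)⟩
  · rw [h1, h2, h3]
    exact ⟨_, natTop_quad (by omega) (dvd_W_Qd m) h4 (W.lowUp t)⟩
  · exact h1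

lemma WG.natSys (W : WG r m K N b θ) : NatSys N := by
  choose B hB using W.natTop
  exact natSys_of_tops hB

lemma WG.low (W : WG r m K N b θ) {x : P} (hx : lev x ≤ 2 * m) : x ∉ unnat N := by
  intro h
  refine mem_unnat.mp h (topOf x) ?_
  rcases W.typ (topOf x) with ⟨h1, h2, h3, h6⟩ | ⟨Nc, co, h0, h1, h2, h3⟩ |
    ⟨Nc, co, h0, h1, h2, h3, h4⟩ | ⟨h1, -, -, -, -⟩ | ⟨-, h2, -, -⟩
  · rw [h1]; exact W.lowOnly (le_topOf x) (by omega)
  · rw [h1]; exact mem_natR.mpr (Or.inl (h0.strip (mem_lowPart.mpr ⟨le_topOf x, hx⟩)))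
  · rw [h1]; exact mem_natS.mpr (Or.inl (h0.strip (mem_lowPart.mpr ⟨le_topOf x, hx⟩)))
  · rw [h1]; exact mem_lowPart.mpr ⟨le_topOf x, hx⟩
  · exact h2 (mem_lowPart.mpr ⟨le_topOf x, hx⟩)

lemma WG.lt_lev (W : WG r m K N b θ) {x : P} (hx : x ∈ unnat N) : 2 * m < lev x := by
  by_contra hcon
  exact W.low (not_lt.mp hcon) hx

/-- elements of the other components -/
structure OthM (m K : ℕ) (N : Tops P → Finset P) (θ : Tops P → P → ℕ) (x : P) : Prop where
  mem : x ∈ N (topOf x)
  cost : ∀ z ∈ r2 (2 * m) N, ∀ y ∈ N (topOf x), lev z = 2 * m + 1 → z ⋖ y →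
    K ≤ ct m (θ (topOf x) y + 1) z
  kap : ∀ y ∈ N (topOf x), 2 * m + 1 ≤ lev y →
    K ≤ ct m (θ (topOf x) y + 1) y + (θ (topOf x) y + 1)
  th : ∀ y ∈ N (topOf x), lev y = 2 * m + 1 → 1 ≤ θ (topOf x) y ∧ θ (topOf x) y ≤ m

/-- the kinds of natural elements -/
theorem WG.cases (W : WG r m K N b θ) {x : P} (hx : x ∉ unnat N) : FullM m N θ x ∨
    (∃ Nc co, InRM m N b θ x Nc co) ∨ (∃ Nc co, InSM m N b θ x Nc co) ∨
      (QdM m N θ x ∧ 4 ≤ m) ∨ OthM m K N θ x := by
  have H := W.gt.H
  have HN := W.natSys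
  have hxt : x ∈ N (topOf x) := HN.mem_iff.mpr ⟨hx, rfl⟩
  have hm := W.two
  have hT := W.typ (topOf x)
  generalize ht : topOf x = t at hxt hT
  rcases hT with ⟨h1, h2, h3, h6⟩ | ⟨Nc, co, h0, h1, h2, h3⟩ |
    ⟨Nc, co, h0, h1, h2, h3, h4⟩ | ⟨h1, h2, h3, h4, h5⟩ | ⟨h1, h2, h3, h4, h5⟩
  · left
    have hs : ∀ z ∈ unnat N, ∃ s : P, lev s = 0 ∧ z ≤ s ∧ s ≠ t := by
      intro z hz
      have h7 : z ∉ onlyB t := by
        rw [← h1]
        exact mem_unnat.mp hz t
      rw [mem_onlyB] at h7
      push Not at h7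
      exact h7
    refine ⟨by rw [ht, h2], ?_, ?_⟩
    · intro z hz hzx k _ hk
      obtain ⟨s, hs1, hs2, hs3⟩ := hs z hz
      exact two_le_nab_join HN H.gradedBelow hxt hzx hs1 hs3 hs2 hk
    · intro z hz h
      obtain ⟨s, hs1, hs2, hs3⟩ := hs z hz
      have h7 := W.lt_lev hz
      have h8 : z < s := lt_of_le_of_ne hs2 (by rintro rfl; omega)
      exact hs3 (HN.top_eq hxt hs1 ((h s).mpr h8).le)
  · -- rectangles
    by_cases hJ : x ∈ junk (fun _ => True) Nc co ∨ x ∈ junk (fun _ => True) Nc (swp co)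
    · left
      refine ⟨?_, ?_, ?_⟩
      · rw [ht, h2]
        unfold thR
        rw [if_pos hJ]
      · intro z hz hzx k hk hkx
        refine rect_two_le_nab H h0 h1 hz hzx ?_ (by omega) hkx
        rcases hJ with h | h
        · exact Or.inl h
        · exact Or.inr (Or.inl h)
      · intro z hz h
        refine mem_unnat.mp hz t ?_
        rw [h1, mem_natR]
        rcases hJ with h' | h'
        · exact Or.inr (Or.inl (junk_twin h' h))
        · exact Or.inr (Or.inr (junk_twin h' h))
    · have hxN : x ∈ Nc := by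
        rw [h1, mem_natR] at hxt
        rcases hxt with h | h | h
        · exact h
        · exact absurd (Or.inl h) hJ
        · exact absurd (Or.inr h) hJ
      have hl := h0.chart.lev x hxN
      have hb1 := h0.b_two
      have hb2 := h0.b_le
      have hrow : b t = m + 1 ∨ (co x).1 ≤ b t - 1 := by
        rcases h0.rows with h | h
        · exact Or.inl h
        · exact Or.inr (h x hxN)
      by_cases h7 : (co x).1 = 0 ∨ (co x).2 = 0
      · left
        refine ⟨?_, ?_, ?_⟩
        · rw [ht, h2]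
          unfold thR
          rw [if_neg hJ]
          omega
        · intro z hz hzx k hk hkx
          exact rect_two_le_nab H h0 h1 hz hzx (Or.inr (Or.inr ⟨hxN, h7⟩)) (by omega) hkx
        · intro z hz h
          have h8 := W.lt_lev hz
          rw [← lev_eq_of_up h] at h8
          rcases h7 with h7 | h7
          · obtain ⟨u, hu, hcu⟩ := h0.chart.low x hxN (0, (co x).2 - 1)
              ⟨Nat.zero_le _, Nat.sub_le _ _⟩ trivial
            refine straight_twin H h0 h1 hxN hu ?_ ?_ ?_ hz h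
            · rw [hcu]
              exact Or.inr ⟨by simp only; omega, by simp only; omega⟩
            · intro y hy hp
              rw [hcu]
              rcases hp with hp | hp
              · omega
              · exact Prod.ext (by simp only; omega) (by simp only; omega)
            · rw [hcu]
              exact Or.inl rfl
          · obtain ⟨u, hu, hcu⟩ := h0.chart.low x hxN ((co x).1 - 1, 0)
              ⟨Nat.sub_le _ _, Nat.zero_le _⟩ trivial
            refine straight_twin H h0 h1 hxN hu ?_ ?_ ?_ hz h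
            · rw [hcu]
              exact Or.inl ⟨by simp only; omega, by simp only; omega⟩
            · intro y hy hp
              rw [hcu]
              rcases hp with hp | hp
              · exact Prod.ext (by simp only; omega) (by simp only; omega)
              · omega
            · rw [hcu]
              exact Or.inr rfl
      · right; left
        refine ⟨Nc, co, ?_, ?_, hxN, by omega, by omega, ?_, ?_⟩
        · rw [ht]; exact h0
        · rw [ht]; exact h1
        · rw [ht, h2]
          unfold thR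
          rw [if_neg hJ]
          omega
        · rw [ht]; exact h3
  · -- stairs
    by_cases hJ : x ∈ junk (fun c => c.1 ≤ c.2) Nc co
    · left
      refine ⟨?_, ?_, ?_⟩
      · rw [ht, h2]
        unfold thS
        rw [if_pos hJ]
      · intro z hz hzx k hk hkx
        exact stair_two_le_nab H h0 h1 hz hzx (Or.inl hJ) hk hkx
      · intro z hz h
        refine mem_unnat.mp hz t ?_
        rw [h1, mem_natS]
        exact Or.inr (junk_twin hJ h)
    · have hxN : x ∈ Nc := by
        rw [h1, mem_natS] at hxt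
        rcases hxt with h | h
        · exact h
        · exact absurd h hJ
      have hl := h0.chart.lev x hxN
      by_cases h7 : (co x).1 = 0
      · left
        refine ⟨?_, ?_, ?_⟩
        · rw [ht, h2]
          unfold thS
          rw [if_neg hJ]
          omega
        · intro z hz hzx k hk hkx
          exact stair_two_le_nab H h0 h1 hz hzx (Or.inr ⟨hxN, h7⟩) hk hkx
        · intro z hz h
          have h8 := W.lt_lev hz
          rw [← lev_eq_of_up h] at h8
          obtain ⟨u, hu, hcu⟩ := h0.chart.low x hxN (0, (co x).2 - 1)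
            ⟨Nat.zero_le _, Nat.sub_le _ _⟩ (Nat.zero_le _)
          refine straight_twinS H h0 (by omega) h1 hxN hu ?_ ?_ ?_ hz h
          · rw [hcu]
            exact Or.inr ⟨by simp only; omega, by simp only; omega⟩
          · intro y hy hp
            rw [hcu]
            rcases hp with hp | hp
            · omega
            · exact Prod.ext (by simp only; omega) (by simp only; omega)
          · rw [hcu]
      · right; right; left
        refine ⟨Nc, co, ?_, ?_, hxN, by omega, ?_, ?_⟩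
        · rw [ht]; exact h0
        · rw [ht]; exact h1
        · rw [ht, h2]
          unfold thS
          rw [if_neg hJ]
        · rw [ht]; exact h4
  · right; right; right; left
    rw [h1, mem_lowPart] at hxt
    exact ⟨⟨by rw [ht]; exact h1, by rw [ht, h2], hxt.2, by rw [ht]; exact h4⟩, h5⟩
  · right; right; right; right
    subst ht
    exact ⟨hxt, h3, h4, h5⟩

end Pool.Agent.GaussPoset.Cs
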