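import Pool.Agent.W_448cc7_h94.CsB

/-!
Case B at window `m`: the unnatural elements of level `2 m + 1` (after `FcU` of helper67).
-/

namespace Pool.Agent.GaussPoset.Cs

set_option linter.unusedSectionVars false

open Polynomial Finset

universe u

variable {P : Type u} [Fintype P] [PartialOrder P] [DecidableEq P] {r m K : ℕ}
  {N : Tops P → Finset P} {b : Tops P → ℕ} {θ : Tops P → P → ℕ}

/-- no joins: all elements above have the same top -/
lemma WG.top_cov (W : WG r m K N b θ) {z x : P} (hl : lev z = 2 * m + 1) (hzx : z ⋖ x) :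
    topOf x = topOf z := by
  by_contra hne
  refine W.nj z hl ⟨topOf x, topOf z, (topOf x).2, (topOf z).2, fun h => hne (Subtype.ext h), ?_,
    le_topOf z⟩
  exact hzx.le.trans (le_topOf x)

/-- the label of a boundary element of level `2 m + 1` -/
lemma WG.h2_eq (W : WG r m K N b θ) {z x : P} (hz : z ∈ r2 (2 * m) N) (hl : lev z = 2 * m + 1)
    (hzx : z ⋖ x) (hmin : ∀ y, z ⋖ y → θ (topOf x) x ≤ θ (topOf y) y) :
    h2 (2 * m) N θ z = θ (topOf x) x + 1 := by
  classical
  have H := W.gt.H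
  have hlev : ∀ y, z ⋖ y → lev y = 2 * m := by
    intro y hy
    have := (H.covBy_iff.mp hy).2
    omega
  have hnY : ∀ y, z ⋖ y → y ∉ twY (2 * m) N := by
    intro y hy h
    have h1 := hlev y hy
    have h2 := (mem_twY.mp h).2.1
    omega
  have hnR : ∀ y, z ⋖ y → y ∉ r2 (2 * m) N := fun y hy h =>
    W.low (hlev y hy).le (mem_sdiff.mp h).1
  have hbd : z ∈ bdR (r2 (2 * m) N) := mem_filter.mpr ⟨hz, x, hnR x hzx, hzx⟩
  refine le_antisymm ?_ ?_
  · refine (hcan_le (θ := thX (twY (2 * m) N) (twT N) (fun x => θ (topOf x) x)) (hnR x hzx)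
      hzx).trans ?_
    rw [thX_not (hnY x hzx)]
  · obtain ⟨y, hy, hzy, hh⟩ := hcan_spec
      (θ := thX (twY (2 * m) N) (twT N) (fun x => θ (topOf x) x)) hbd
    rw [thX_not (hnY y hzy)] at hh
    have h3 := hmin y hzy
    show _ ≤ hcan _ _ z
    omega

/-- a cover which gives the label -/
lemma WG.exists_lab (W : WG r m K N b θ) {z : P} (hz : z ∈ r2 (2 * m) N)
    (hl : lev z = 2 * m + 1) : ∃ x, z ⋖ x ∧ h2 (2 * m) N θ z = θ (topOf x) x + 1 := by
  classical
  have hzt : z < (topOf z : P) := lt_of_le_of_ne (le_topOf z) (by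
    intro h
    have := (topOf z).2
    rw [← h] at this
    omega)
  obtain ⟨x0, hzx0, -⟩ := Hul.exists_cov hzt
  obtain ⟨x, hx, hmin⟩ := Finset.exists_min_image (univ.filter (fun y : P => z ⋖ y))
    (fun y => θ (topOf y) y) ⟨x0, by simp [hzx0]⟩
  rw [mem_filter] at hx
  exact ⟨x, hx.2, W.h2_eq hz hl hx.2 fun y hy => hmin y (by simp [hy])⟩

lemma WG.mem_bd (W : WG r m K N b θ) {z : P} (hz : z ∈ r2 (2 * m) N) (hl : lev z = 2 * m + 1) :
    z ∈ bdR (r2 (2 * m) N) := by
  classical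
  have hzt : z < (topOf z : P) := lt_of_le_of_ne (le_topOf z) (by
    intro h
    have := (topOf z).2
    rw [← h] at this
    omega)
  obtain ⟨x, hzx, -⟩ := Hul.exists_cov hzt
  refine mem_filter.mpr ⟨hz, x, fun h => ?_, hzx⟩
  have h1 := (W.gt.H.covBy_iff.mp hzx).2
  exact W.low (by omega) (mem_sdiff.mp h).1

/-- all covers have full thresholds: large cost -/
lemma WG.cst_full (W : WG r m K N b θ) {z : P} (hz : z ∈ r2 (2 * m) N) (hl : lev z = 2 * m + 1)
    (h : ∀ x, z ⋖ x → FullM m N θ x) : (m + 1) ^ 2 ≤ cst m (h2 (2 * m) N θ) z := by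
  have hm := W.two
  obtain ⟨x, hzx, h3⟩ := W.exists_lab hz hl
  have hlev : lev x = 2 * m := by
    have := (W.gt.H.covBy_iff.mp hzx).2
    omega
  rw [(h x hzx).th, hlev] at h3
  have h4 := sq_le_cst (i := m) (h := h2 (2 * m) N θ) (z := z) (by omega)
    (by rw [h3]; omega) (by
      intro k hk hk2
      exact (h x hzx).two z (mem_sdiff.mp hz).1 hzx.le k (by omega) (by rw [hlev]; omega))
  rwa [hl, show 2 * m + 1 - m = m + 1 by omega] at h4

/-- the kinds of elements of level `2 m` -/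
theorem WG.kind (W : WG r m K N b θ) {x : P} (hl : lev x = 2 * m) :
    FullM m N θ x ∨ FoldM m N b θ x ∨ (QdM m N θ x ∧ 4 ≤ m) ∨ OthM m K N θ x ∨
      ((Win.uc x).card = 2 ∧ NopT m (topOf x)) := by
  have H := W.gt.H
  have hm := W.two
  rcases W.cases (W.low hl.le) with h | ⟨Nc, co, h⟩ | ⟨Nc, co, h⟩ | h | h
  · exact Or.inl h
  · exact Or.inr (Or.inr (Or.inr (Or.inr
      ⟨chart_inner_uc h.rect.chart H h.mem h.fst h.snd, h.nop⟩)))
  · have h1 := h.stair.chart.lev x h.mem
    have h2 : (co x).1 ≤ (co x).2 := h.stair.chart.mem x h.mem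
    by_cases h3 : (co x).1 = m
    · exact Or.inr (Or.inl ⟨Nc, co, h, Prod.ext h3 (by simp only; omega)⟩)
    · exact Or.inr (Or.inr (Or.inr (Or.inr ⟨chartS_inner_uc h.stair.chart H h.mem h.fst
        (by omega), h.nop⟩)))
  · exact Or.inr (Or.inr (Or.inl h))
  · exact Or.inr (Or.inr (Or.inr (Or.inl h)))

/-- the unnatural elements of level `2 m + 1` which are no twins -/
inductive KG (m K : ℕ) (N : Tops P → Finset P) (b : Tops P → ℕ) (θ : Tops P → P → ℕ) (z : P) :
    Prop
  | high (h : K ≤ cst m (h2 (2 * m) N θ) z)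
  | penQ (x : P) (hx : QdM m N θ x) (hm : 4 ≤ m) (hp : Pend z x)
  | penF (x : P) (hx : FoldM m N b θ x) (hp : Pend z x)
  | cc (h : CcM m N b θ z) (h' : ∀ y, z ⋖ y → ¬ OthM m K N θ y)

lemma WG.oth_high (W : WG r m K N b θ) {z x : P} (hz : z ∈ r2 (2 * m) N)
    (hl : lev z = 2 * m + 1) (hzx : z ⋖ x) (hO : OthM m K N θ x) :
    K ≤ cst m (h2 (2 * m) N θ) z := by
  obtain ⟨y, hzy, hh⟩ := W.exists_lab hz hl
  have h1 : topOf y = topOf x := (W.top_cov hl hzy).trans (W.top_cov hl hzx).symm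
  have hly : lev y = 2 * m := by
    have := (W.gt.H.covBy_iff.mp hzy).2
    omega
  have hyN : y ∈ N (topOf x) := by
    rw [← h1]
    exact W.natSys.mem_iff.mpr ⟨W.low hly.le, rfl⟩
  rw [cst_ct hh, h1]
  exact hO.cost z hz y hyN hl hzy

/-- two neighbours of the level `2 m`: the element is natural or a twin -/
lemma WG.near (W : WG r m K N b θ) {z x x' : P} (hz : z ∈ r2 (2 * m) N) (hl : lev z = 2 * m + 1)
    (hO : ∀ y, z ⋖ y → ¬ OthM m K N θ y)
    (hzx : z ⋖ x) (hzx' : z ⋖ x') (hne : x ≠ x') (h1 : ucv x x' = 1) : False := by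
  classical
  have H := W.gt.H
  have HN := W.natSys
  have hm := W.two
  have hlx : lev x = 2 * m := by
    have := (H.covBy_iff.mp hzx).2
    omega
  have hlx' : lev x' = 2 * m := by
    have := (H.covBy_iff.mp hzx').2
    omega
  rw [r2, mem_sdiff] at hz
  have hzU := hz.1
  obtain ⟨p, hp⟩ := Finset.card_eq_one.mp h1
  have hp2 : x ⋖ p ∧ x' ⋖ p := by
    have : p ∈ (univ.filter (fun y : P => x ⋖ y ∧ x' ⋖ y)) := by rw [hp]; simp
    simpa using this
  have hxt : topOf x = topOf z := W.top_cov hl hzx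
  have hxt' : topOf x' = topOf z := W.top_cov hl hzx'
  have hxle : x ≤ (topOf z : P) := by rw [← hxt]; exact le_topOf x
  have hxle' : x' ≤ (topOf z : P) := by rw [← hxt']; exact le_topOf x'
  have twin : ∀ y : P, y ∉ unnat N → y ⋖ x → y ⋖ x' → False := fun y hy hyx hyx' =>
    hz.2 (mem_twY.mpr ⟨hzU, hl, y, hy, up_of_pair H hzx hzx' hyx hyx' hne⟩)
  rcases W.typ (topOf z) with ⟨g1, g2, g3, g6⟩ | ⟨Nc, co, g0, g1, g2, g3⟩ |
    ⟨Nc, co, g0, g1, g2, g3, g4⟩ | ⟨g1, g2, g3, g4, g5⟩ | ⟨g1, g2, g3, g4, g5⟩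
  · refine mem_unnat.mp hzU (topOf z) ?_
    rw [g1]
    exact W.lowOnly (le_topOf z) (by omega)
  · have hx : x ∈ Nc := g0.strip (mem_lowPart.mpr ⟨hxle, hlx.le⟩)
    have hx' : x' ∈ Nc := g0.strip (mem_lowPart.mpr ⟨hxle', hlx'.le⟩)
    have hzN : z ∉ Nc := fun h => mem_unnat.mp hzU (topOf z) (by
      rw [g1]
      exact mem_natR.mpr (Or.inl h))
    obtain ⟨y, hy, hyx, hyx'⟩ := near_chart H g0.chart g0.max (fun _ _ _ => trivial) hx hx' hp2.1
      hp2.2 hzx hzx' hne hzN
    refine twin y (HN.mem_iff (t := topOf z).mp ?_).1 hyx hyx'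
    rw [g1]
    exact mem_natR.mpr (Or.inl hy)
  · have hx : x ∈ Nc := g0.strip (mem_lowPart.mpr ⟨hxle, hlx.le⟩)
    have hx' : x' ∈ Nc := g0.strip (mem_lowPart.mpr ⟨hxle', hlx'.le⟩)
    have hzN : z ∉ Nc := fun h => mem_unnat.mp hzU (topOf z) (by
      rw [g1]
      exact mem_natS.mpr (Or.inl h))
    obtain ⟨y, hy, hyx, hyx'⟩ := near_chart H g0.chart g0.max
      (fun s c (h : s + 1 ≤ c) => show s + 1 ≤ c + 1 by omega) hx hx' hp2.1 hp2.2 hzx hzx' hne hzN
    refine twin y (HN.mem_iff (t := topOf z).mp ?_).1 hyx hyx'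
    rw [g1]
    exact mem_natS.mpr (Or.inl hy)
  · exact hne (g4.unique hxle hxle' hlx hlx')
  · refine hO x hzx ⟨HN.mem_iff.mpr ⟨W.low hlx.le, rfl⟩, ?_, ?_, ?_⟩
    · rw [hxt]; exact g3
    · rw [hxt]; exact g4
    · rw [hxt]; exact g5

/-- a single-up element of level `2 m` of the stair of a fold end -/
lemma WG.stair_single (W : WG r m K N b θ) {x x' : P} {Nc : Finset P} {co : P → ℕ × ℕ}
    (h : InSM m N b θ x Nc co) (hcx : co x = (m, m)) (hlx' : lev x' = 2 * m)
    (hxt : topOf x' = topOf x) (hne : x ≠ x') (h1 : (Win.uc x').card = 1) :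
    x' ∈ Nc ∧ co x' = (0, 2 * m) := by
  have hx' : x' ∈ Nc := h.stair.strip (mem_lowPart.mpr ⟨by rw [← hxt]; exact le_topOf x',
    hlx'.le⟩)
  refine ⟨hx', ?_⟩
  have h2 := h.stair.chart.lev x' hx'
  have h3 : (co x').1 ≤ (co x').2 := h.stair.chart.mem x' hx'
  by_cases h4 : (co x').1 = 0
  · exact Prod.ext h4 (by simp only; omega)
  · exfalso
    by_cases h5 : (co x').1 = (co x').2
    · exact hne (h.stair.chart.inj x h.mem x' hx' (by
        rw [hcx]
        exact Prod.ext (by simp only; omega) (by simp only; omega)))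
    · have := chartS_inner_uc h.stair.chart W.gt.H hx' (by omega) (by omega)
      omega

/-- the classification -/
theorem WG.class (W : WG r m K N b θ) {z : P} (hz : z ∈ r2 (2 * m) N)
    (hl : lev z = 2 * m + 1) : KG m K N b θ z := by
  classical
  have H := W.gt.H
  have HN := W.natSys
  have hm := W.two
  by_cases hO : ∃ y, z ⋖ y ∧ OthM m K N θ y
  · obtain ⟨y, hzy, hy⟩ := hO
    exact KG.high (W.oth_high hz hl hzy hy)
  have hO' : ∀ y, z ⋖ y → ¬ OthM m K N θ y := fun y hy h => hO ⟨y, hy, h⟩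
  have hfull : (∀ x, z ⋖ x → FullM m N θ x) → KG m K N b θ z := fun h =>
    KG.high (W.K_le.trans (W.cst_full hz hl h))
  have hzt : z < (topOf z : P) := lt_of_le_of_ne (le_topOf z) (by
    intro h
    have := (topOf z).2
    rw [← h] at this
    omega)
  obtain ⟨x, hzx, hxt⟩ := Hul.exists_cov hzt
  have hlev : ∀ y, z ⋖ y → lev y = 2 * m := by
    intro y hy
    have := (H.covBy_iff.mp hy).2
    omega
  have hlx := hlev x hzx
  by_cases honly : ∀ y, z ⋖ y → y = x
  · rcases W.kind hlx with h | h | h | h | h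
    · refine hfull fun y hy => ?_
      rw [honly y hy]
      exact h
    · exact KG.penF x h ⟨hzx, honly⟩
    · exact KG.penQ x h.1 h.2 ⟨hzx, honly⟩
    · exact absurd h (hO' x hzx)
    · exact absurd honly (h.2 x z (le_topOf x) hlx h.1 hzx)
  · push Not at honly
    obtain ⟨x', hzx', hne'⟩ := honly
    have hne : x ≠ x' := Ne.symm hne'
    have hlx' := hlev x' hzx'
    obtain ⟨i, hi⟩ : ∃ i, 2 * m = i + 1 := ⟨2 * m - 1, by omega⟩
    have hgt := W.gt
    rw [hi] at hgt
    have ht : topOf x = topOf x' := (W.top_cov hl hzx).trans (W.top_cov hl hzx').symm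
    rcases (Win.near_level' hgt (by omega)).1 z x x' (by omega) hzx hzx' hne with
      h7 | ⟨h7, h8, -⟩
    · exact (W.near hz hl hO' hzx hzx' hne h7).elim
    · have hQ : ∀ y, z ⋖ y → ¬ QdM m N θ y := by
        intro y hy hQ
        have hty : topOf y = topOf x := by
          rcases uc_pair H hzx hzx' hne hy with h | h
          · rw [h]
          · rw [h, ht]
        have hy1 : x ≤ (topOf y : P) := by rw [hty]; exact le_topOf x
        have hy2 : x' ≤ (topOf y : P) := by rw [hty, ht]; exact le_topOf x'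
        exact hne (hQ.inf.unique hy1 hy2 hlx hlx')
      rcases W.kind hlx with h | ⟨Nc, co, h, hcx⟩ | h | h | h
      · rcases W.kind hlx' with h' | ⟨Nc, co, h', hcx⟩ | h' | h' | h'
        · refine hfull fun y hy => ?_
          rcases uc_pair H hzx hzx' hne hy with e | e
          · rw [e]; exact h
          · rw [e]; exact h'
        · obtain ⟨h9, h10⟩ := W.stair_single h' hcx hlx ht hne' h7
          exact KG.cc ⟨hl, x', x, Nc, co, h', hcx, h9, h10, hzx', hzx⟩ hO'
        · exact absurd h'.1 (hQ x' hzx')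
        · exact absurd h' (hO' x' hzx')
        · omega
      · obtain ⟨h9, h10⟩ := W.stair_single h hcx hlx' ht.symm hne h8
        exact KG.cc ⟨hl, x, x', Nc, co, h, hcx, h9, h10, hzx, hzx'⟩ hO'
      · exact absurd h.1 (hQ x hzx)
      · exact absurd h (hO' x hzx)
      · omega

end Pool.Agent.GaussPoset.Cs
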