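import Pool.Agent.W_448cc7_h94.CsE
import Pool.Agent.W_448s14_h94.SgM
import Pool.Agent.W_448t6_h16.TD

/-!
Level 14, window 7: the component `E7` with a natural element of level 15; a natural component is
not `La7`.
-/

namespace Pool.Agent.GaussPoset.Cs

set_option linter.unusedSectionVars false

open Polynomial Finset Cl Wd Cp

universe u

variable {P : Type u} [Fintype P] [PartialOrder P] [DecidableEq P] {r : ℕ}
variable {t : Tops P} {lo hi : ℕ → ℕ} {e : ℕ → ℕ → P}

/-- the up-sets of the cells of `E7` -/
def E7um : List ℕ := [1, 3, 7, 15, 31, 47, 95, 191, 511, 703, 2047, 2751, 6143, 12287, 19135, 49151,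
  94207, 180223, 393215, 704511, 1572863, 4194303, 5767167, 16777215, 33554431, 67108863, 134217727]

/-- the cell with the number `a` -/
def c7 (e : ℕ → ℕ → P) (a : ℕ) : P := e (E7lv.getD a 0) (E7sl.getD a 0)

lemma E7_cod14 (D : WordD 14 4 w7 lo hi) (C : Comp 14 (t : P) lo hi e) (H : Gr P r)
    (hg : ∀ l, l < 14 → Win.Good P l) :
    Cod 25 (fun a => E7cv.getD a 0) (fun a => E7lv.getD a 0) (c7 e) := by
  obtain ⟨h1, h2⟩ := D.rows C
  exact E7_strip.cod C H hg t.2 (by norm_num) h1 h2

/-- one more cell -/
def c7y (e : ℕ → ℕ → P) (y : P) (a : ℕ) : P := if a < 25 then c7 e a else y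

lemma E7_cod15 (D : WordD 14 4 w7 lo hi) (C : Comp 14 (t : P) lo hi e) (H : Gr P r)
    (hg : ∀ l, l < 14 → Win.Good P l) {y : P} (hl : lev y = 15)
    (hy : ∀ w, y ⋖ w ↔ w = c7 e 24) :
    Cod 26 (fun a => E7cv.getD a 0) (fun a => E7lv.getD a 0) (c7y e y) := by
  have C25 := E7_cod14 D C H hg
  refine Sg.cod_append (n := 25) (K := 1) (cx := fun _ => 16777216) (lx := fun _ => 15)
    (z := fun _ => y) C25 (by decide +kernel) (by decide +kernel) (fun a _ => rfl)
    (fun a _ => rfl) (by decide +kernel) (by decide +kernel) (by intro a ha b hb _; omega) ?_ ?_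
    (fun _ _ => hl)
  · intro a ha b _ h
    have h1 := C25.lev a ha
    have h2 : ∀ a < 25, E7lv.getD a 0 ≤ 14 := by decide +kernel
    have h3 := h2 a ha
    rw [h, hl] at h1
    omega
  · intro k _ w
    rw [hy w]
    constructor
    · intro h
      exact ⟨24, by norm_num, by decide +kernel, h.symm⟩
    · rintro ⟨b, hb, hbit, rfl⟩
      have h : ∀ b < 25, (16777216 : ℕ).testBit b = true → b = 24 := by decide +kernel
      rw [h b hb hbit]

/-- order two of the strip with one more cell -/
lemma E7_clean15 (D : WordD 14 4 w7 lo hi) (C : Comp 14 (t : P) lo hi e) (H : Gr P r)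
    (hg : ∀ l, l < 14 → Win.Good P l) {y : P} (hl : lev y = 15)
    (hy : ∀ w, y ⋖ w ↔ w = c7 e 24) :
    CleanAt 7 2 (lowPart 14 (t : P) ∪ {y}) (e 11 4) := by
  obtain ⟨h1, h2⟩ := D.rows C
  intro U hUN hup hlow hbase
  have hC := E7_cod15 D C H hg hl hy
  obtain ⟨h3, h4⟩ := E7_strip.base_mem C H hg t.2 (j := 14) (by norm_num) h1 h2 (i := 7)
    E7_b7 (by show (11 : ℕ) ≤ 14; omega) hup
    (fun x hx hx' => hlow x (mem_union_left _ hx) hx') hbase
  refine hC.clean_of E7_us (by norm_num) E7_win7 ?_ hup (by norm_num) ?_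
  · intro x hx
    rcases mem_union.mp (hUN hx) with h | h
    · obtain ⟨a, ha, hxa⟩ := E7_strip.surj' C (by norm_num) h1 h2 h
      have ha25 : a < 25 := ha
      exact ⟨a, by omega, by unfold c7y; rw [if_pos ha25]; exact hxa⟩
    · refine ⟨25, by norm_num, ?_⟩
      unfold c7y
      rw [if_neg (by norm_num)]
      exact (mem_singleton.mp h).symm
  · intro a ha hbit
    have h5 : ∀ a < 26, (1572863 : ℕ).testBit a = true → a < 25 := by decide +kernel
    have h6 := h5 a ha hbit
    unfold c7y
    rw [if_pos h6]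
    exact h4 a h6 hbit

/-- the only element of level 14 -/
lemma E7_one (D : WordD 14 4 w7 lo hi) (C : Comp 14 (t : P) lo hi e) {x : P} (hx : x ≤ (t : P))
    (hl : lev x = 14) : x = c7 e 24 := by
  obtain ⟨h1, h2⟩ := D.rows C
  obtain ⟨s, s1, s2, hs⟩ := C.surj x hx (by omega)
  rw [hl] at s1 s2 hs
  have l1 := h1 14 le_rfl
  have l2 := h2 14 le_rfl
  have l3 : losW 4 w7 14 = 5 ∧ hisW 4 w7 14 = 5 := by decide +kernel
  rw [← hs, show s = 5 by omega]
  rfl

/-- the cost below the cell of level 15 -/
lemma E7_cost (D : WordD 14 4 w7 lo hi) (C : Comp 14 (t : P) lo hi e) (H : Gr P r)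
    (hg : ∀ l, l < 14 → Win.Good P l) {y : P} (hl : lev y = 15)
    (hy : ∀ w, y ⋖ w ↔ w = c7 e 24) : ct 7 5 y = 46 := by
  have hC := E7_cod14 D C H hg
  have h1 := Sg.cod_ct (um := fun a => E7um.getD a 0) hC (by decide +kernel) (by decide +kernel)
    (z := y) (m := 16777216) (fun w => by
      rw [hy w]
      constructor
      · intro h
        exact ⟨24, by norm_num, by decide +kernel, h.symm⟩
      · rintro ⟨b, hb, hbit, rfl⟩
        have h : ∀ b < 25, (16777216 : ℕ).testBit b = true → b = 24 := by decide +kernel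
        rw [h b hb hbit]) 7 5
  rw [h1, hl]
  decide +kernel

/-- **the type of `E7`** -/
theorem tyL_E7 (h : Win.GoodTo P r 14) (C : Comp 14 (t : P) lo hi e)
    (D : WordD 14 4 w7 lo hi) (hno : ∀ z : P, lev z = 15 → ¬ Hul.Jn z) :
    ∃ N θ, TyL 7 49 t (hi 7 - lo 7 + 1) N θ := by
  classical
  have H := h.H
  obtain ⟨h1, h2⟩ := D.rows C
  have hb : hi 7 - lo 7 + 1 = 2 := by
    rw [h1 7 (by omega), h2 7 (by omega)]
    decide +kernel
  rw [hb]
  have hr := row7 7 (by omega) (by omega)
  rw [← h1 (7 + 4) (by omega), ← h2 (7 + 4) (by omega)] at hr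
  have hl11 : lev (e 11 4) = 11 := C.lev_e 11 4 (by norm_num) hr.1 hr.2
  have hle11 : e 11 4 ≤ (t : P) := C.le_t 11 4 (by norm_num) hr.1 hr.2
  have l14 : lev (c7 e 24) = 14 := (E7_cod14 D C H h.good).lev 24 (by norm_num)
  -- the covers of an element of level 15
  have hcov : ∀ z : P, lev z = 15 → z ≤ (t : P) → ∀ w, z ⋖ w ↔ w = c7 e 24 := by
    intro z hz hzt
    have key : ∀ w, z ⋖ w → w = c7 e 24 := by
      intro w hw
      refine E7_one D C ?_ ?_
      · have h3 : (topOf w : P) = (t : P) := by
          by_contra hne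
          exact hno z hz ⟨topOf w, t, (topOf w).2, t.2, hne, hw.le.trans (le_topOf w), hzt⟩
        rw [← h3]
        exact le_topOf w
      · have := (H.covBy_iff.mp hw).2
        omega
    intro w
    refine ⟨key w, ?_⟩
    rintro rfl
    obtain ⟨v, hv, -⟩ := Hul.exists_cov (lt_of_le_of_ne hzt (by
      intro h
      have := t.2
      rw [← h] at this
      omega))
    rwa [← key v hv]
  by_cases hex : ∃ y : P, lev y = 15 ∧ y ≤ (t : P)
  · obtain ⟨y, hly, hyt⟩ := hex
    have hy := hcov y hly hyt
    have hclean := E7_clean15 D C H h.good hly hy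
    have h0 : e 11 4 ∈ lowPart 14 (t : P) ∪ {y} :=
      mem_union_left _ (mem_lowPart.mpr ⟨hle11, by omega⟩)
    have hloc := hclean.loc_lev H.gradedBelow h0 (by omega)
    have hN : NatTop 7 t 2 (lowPart 14 (t : P) ∪ {y}) (fun x => lev x - lev (e 11 4))
        (fun x => x = e 11 4) := by
      refine hloc.natTop ?_ ?_ ?_
      · intro x hx w hxw
        rcases mem_union.mp hx with hx | hx
        · rw [mem_lowPart] at hx
          refine mem_union_left _ (mem_lowPart.mpr ⟨Cp.up_le H h.good t.2 hx.1 hx.2 hxw, ?_⟩)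
          rcases eq_or_lt_of_le hxw with h3 | h3
          · rw [← h3]; exact hx.2
          · have := lev_strictAnti h3; omega
        · rw [mem_singleton] at hx
          subst hx
          rcases eq_or_lt_of_le hxw with h3 | h3
          · rw [← h3]
            exact mem_union_right _ (mem_singleton_self _)
          · obtain ⟨v, hv, hvw⟩ := Hul.exists_cov h3
            rw [hy v] at hv
            subst hv
            have h4 : c7 e 24 ≤ (t : P) := by
              have := (hy (c7 e 24)).mpr rfl
              have h5 : (topOf (c7 e 24) : P) = (t : P) := by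
                by_contra hne
                exact hno x hly ⟨topOf (c7 e 24), t, (topOf (c7 e 24)).2, t.2, hne,
                  this.le.trans (le_topOf _), hyt⟩
              rw [← h5]
              exact le_topOf _
            refine mem_union_left _ (mem_lowPart.mpr
              ⟨Cp.up_le H h.good t.2 h4 (by omega) hvw, ?_⟩)
            rcases eq_or_lt_of_le hvw with h5 | h5
            · rw [← h5]; omega
            · have := lev_strictAnti h5; omega
      · intro x hx
        rcases mem_union.mp hx with hx | hx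
        · exact (mem_lowPart.mp hx).1
        · rw [mem_singleton] at hx
          rw [hx]
          exact hyt
      · intro x hx hxi
        exact mem_union_left _ (mem_lowPart.mpr ⟨hx, by omega⟩)
    refine ⟨_, _, TyL.oth ⟨_, hN⟩ subset_union_left ?_ ?_ ?_⟩
    · intro z hz hzN x hx hzx
      right
      have hxl := (H.covBy_iff.mp hzx).2
      refine ⟨y, mem_union_right _ (mem_singleton_self _), ?_⟩
      have hxt : x ≤ (t : P) := by
        rcases mem_union.mp hx with hx | hx
        · exact (mem_lowPart.mp hx).1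
        · rw [mem_singleton] at hx
          rw [hx]
          exact hyt
      have hz' := hcov z hz (hzx.le.trans hxt)
      intro w
      constructor
      · intro hyw
        obtain ⟨v, hv, hvw⟩ := Hul.exists_cov hyw
        rw [hy v] at hv
        exact ((hz' v).mpr hv).lt.trans_le hvw
      · intro hzw
        obtain ⟨v, hv, hvw⟩ := Hul.exists_cov hzw
        rw [hz' v] at hv
        exact ((hy v).mpr hv).lt.trans_le hvw
    · intro x hx hxl
      have hxy : x = y := by
        rcases mem_union.mp hx with hx | hx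
        · have := (mem_lowPart.mp hx).2
          omega
        · exact mem_singleton.mp hx
      rw [hxy]
      show 49 ≤ ct 7 (lev y - lev (e 11 4) + 1) y + (lev y - lev (e 11 4) + 1)
      rw [hly, hl11, show 15 - 11 + 1 = 5 by norm_num, E7_cost D C H h.good hly hy]
      norm_num
    · intro x _ hxl
      show 1 ≤ lev x - lev (e 11 4) ∧ lev x - lev (e 11 4) ≤ 7
      rw [hxl, hl11]
      norm_num
  · push Not at hex
    have hN := natTop_E7 D C H h.good H.gradedBelow (i := 7) (by omega) (by omega) (by omega)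
      (by omega)
    refine ⟨_, _, TyL.oth ⟨_, hN⟩ (Subset.refl _) ?_ ?_ ?_⟩
    · intro z hz _ x hx hzx
      exact absurd (hzx.le.trans (mem_lowPart.mp hx).1) (hex z hz)
    · intro x hx hxl
      have := (mem_lowPart.mp hx).2
      omega
    · intro x hx hxl
      have := (mem_lowPart.mp hx).2
      omega

end Pool.Agent.GaussPoset.Cs
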