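import Pool.Agent.W_448cc7_h94.CsF

/-!
Case B, `m = 7`: no element (C) (MP_448cb3_co, input HCC at `m = 7`).
-/

namespace Pool.Agent.GaussPoset.Cs

set_option linter.unusedSectionVars false

open Polynomial Finset Cl Wd Cp Win

universe u

variable {P : Type u} [Fintype P] [PartialOrder P] [DecidableEq P] {r : ℕ}
variable {t : Tops P} {lo hi : ℕ → ℕ} {e : ℕ → ℕ → P}

lemma one_ucv {v v' y : P} (h : v ⋖ y) (h' : v' ⋖ y) : 1 ≤ ucv v v' := by
  classical
  unfold ucv
  exact Finset.card_pos.mpr ⟨y, by simp [h, h']⟩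

lemma dcv_exists {v v' : P} (h : 1 ≤ dcv v v') : ∃ y, y ⋖ v ∧ y ⋖ v' := by
  classical
  unfold dcv at h
  obtain ⟨y, hy⟩ := Finset.card_pos.mp h
  rw [mem_filter] at hy
  exact ⟨y, hy.2⟩

/-- **A natural component at level 14 is not `La7`.** -/
theorem no_la (h : GoodTo P r 14) (C : Comp 14 (t : P) lo hi e) (D : WordD 14 7 wa7 lo hi)
    (hN : NatT 14 (t : P)) : False := by
  classical
  obtain ⟨h1, h2⟩ := D.rows C
  have l11 : losW 7 wa7 11 = 2 ∧ hisW 7 wa7 11 = 4 := by decide +kernel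
  have l12 : losW 7 wa7 12 = 3 ∧ hisW 7 wa7 12 = 5 := by decide +kernel
  have l13 : losW 7 wa7 13 = 3 ∧ hisW 7 wa7 13 = 6 := by decide +kernel
  have l14 : losW 7 wa7 14 = 3 ∧ hisW 7 wa7 14 = 7 := by decide +kernel
  rw [← h1 11 (by norm_num), ← h2 11 (by norm_num)] at l11
  rw [← h1 12 (by norm_num), ← h2 12 (by norm_num)] at l12
  rw [← h1 13 (by norm_num), ← h2 13 (by norm_num)] at l13
  rw [← h1 14 (by norm_num), ← h2 14 (by norm_num)] at l14
  have hS : S5c lo hi e 13 := (near_level' (i := 13) h (by norm_num)).2 _ lo hi e t.2 C.toWin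
  have hL : LCO lo hi 13 := ⟨by norm_num, by norm_num; omega, by norm_num; omega, by omega⟩
  have key : ∀ b, b = 4 ∨ b = 5 → (pen (e 14 b)).card = 0 := by
    intro b hb
    by_contra hp
    obtain ⟨p, hp⟩ := Finset.card_pos.mp (Nat.pos_of_ne_zero hp)
    rw [mem_pen] at hp
    have hlev : ∀ a, 3 ≤ a → a ≤ 7 → lev (e 14 a) = 14 := fun a h3 h7 =>
      C.lev_e 14 a le_rfl (by omega) (by omega)
    have hle : ∀ a, 3 ≤ a → a ≤ 7 → e 14 a ≤ (t : P) := fun a h3 h7 =>
      C.le_t 14 a le_rfl (by omega) (by omega)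
    have hne : ∀ a b, 3 ≤ a → a ≤ 7 → 3 ≤ b → b ≤ 7 → a ≠ b → e 14 a ≠ e 14 b := by
      intro a b a1 a2 b1 b2 hab h
      exact hab (C.inj 14 a b le_rfl (by omega) (by omega) (by omega) (by omega) h)
    have hadj : ∀ a, 3 ≤ a → a < 7 → ∃ y, y ⋖ e 14 a ∧ y ⋖ e 14 (a + 1) := by
      intro a a1 a2
      have c1 : e 14 a ⋖ e 13 a := (C.cov 13 a a (by norm_num) (by norm_num; omega)
        (by norm_num; omega) (by omega) (by omega)).mpr (Or.inl rfl)
      have c2 : e 14 (a + 1) ⋖ e 13 a := (C.cov 13 (a + 1) a (by norm_num) (by norm_num; omega)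
        (by norm_num; omega) (by omega) (by omega)).mpr (Or.inr rfl)
      have h3 := one_ucv c1 c2
      rw [hN _ _ (hlev a a1 (by omega)) (hlev (a + 1) (by omega) (by omega)) (hle a a1 (by omega))
        (hle (a + 1) (by omega) (by omega)) (hne a (a + 1) a1 (by omega) (by omega) (by omega)
        (by omega))] at h3
      exact dcv_exists h3
    obtain ⟨y1, y11, y12⟩ := hadj (b - 1) (by omega) (by omega)
    obtain ⟨y2, y21, y22⟩ := hadj b (by omega) (by omega)
    rw [show b - 1 + 1 = b by omega] at y12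
    obtain ⟨q, hq⟩ := Finset.card_eq_one.mp hp.2
    have hpq : ∀ w, p ⋖ w → w = e 14 b := by
      intro w hw
      have g1 : w ∈ uc p := mem_uc.mpr hw
      have g2 : e 14 b ∈ uc p := mem_uc.mpr hp.1
      rw [hq, mem_singleton] at g1 g2
      rw [g1, g2]
    refine dc_three h.H y12 y21 hp.1 ?_ ?_ ?_
    · rintro rfl
      have h3 := StB_uc_pair h.H y11 y12 (hne (b - 1) b (by omega) (by omega) (by omega)
        (by omega) (by omega))
      have h4 : e 14 (b + 1) ∈ uc y1 := mem_uc.mpr y22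
      rw [h3, mem_insert, mem_singleton] at h4
      rcases h4 with h4 | h4
      · exact hne (b + 1) (b - 1) (by omega) (by omega) (by omega) (by omega) (by omega) h4
      · exact hne (b + 1) b (by omega) (by omega) (by omega) (by omega) (by omega) h4
    · rintro rfl
      exact hne (b - 1) b (by omega) (by omega) (by omega) (by omega) (by omega) (hpq _ y11)
    · rintro rfl
      exact hne (b + 1) b (by omega) (by omega) (by omega) (by omega) (by omega) (hpq _ y22)
  rcases hS with ⟨g1, -, -⟩ | ⟨-, -, b, g1, g2⟩ | ⟨-, g1, -⟩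
  · exact g1 hL
  · have hb : b = 4 ∨ b = 5 := by omega
    have g3 := g2 b (by omega) (by omega)
    rw [if_pos rfl] at g3
    have g4 := key b hb
    have g5 : (pen (e (13 + 1) b)).card = 0 := g4
    omega
  · exact g1 hL

/-- **(C), `m = 7`.** -/
theorem no_cc_seven (h : GoodTo P r (2 * 7)) {lo hi : Tops P → ℕ → ℕ} {e : Tops P → ℕ → ℕ → P}
    (C : ∀ t : Tops P, Comp (2 * 7) (t : P) (lo t) (hi t) (e t))
    (hS : ∀ t, Shape (2 * 7) (lo t) (hi t))
    (hT : ∀ t : Tops P, NatT (2 * 7) (t : P) ∨ StairShape (2 * 7) (lo t) (hi t))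
    (hnj : ∀ z : P, lev z = 2 * 7 + 1 → ¬ Hul.Jn z) {t : Tops P} {z : P}
    (S : StairShape (2 * 7) (lo t) (hi t)) (h0 : lo t (2 * 7) = 0)
    (hz1 : z ⋖ e t (2 * 7) 7) (hz2 : z ⋖ e t (2 * 7) 0) : False := by
  refine caseB_no_cc (m := 7) (by norm_num) (by norm_num) h C hS ?_ hnj S h0 hz1 hz2
  intro s hs a ha D g3
  rw [show Ke 7 = 49 from Ke_odd 3]
  have h0 := D.h0
  obtain rfl | rfl | rfl | rfl | rfl : a = 3 ∨ a = 4 ∨ a = 5 ∨ a = 6 ∨ a = 7 := by omega
  · have := (wordD_three D (by omega)).2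
    omega
  · exact tyL_E7 h (C s) (wordD_four D (by omega) (by omega)).1 hnj
  · exact absurd word_length (Sg.late5_14 _ g3)
  · exact absurd word_length (Sg.late6_14 _ g3)
  · exfalso
    have g4 : WordD 14 7 wa7 (lo s) (hi s) :=
      ⟨D.h2, D.h3, Sg.late7_14 _ g3 (by rw [word_length])⟩
    rcases hT s with h1 | h1
    · exact no_la h (C s) g4 h1
    · exact hs h1

end Pool.Agent.GaussPoset.Cs
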